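import Pool.Agent.Helper90_AHH.IncNum
import Pool.Agent.Helper58_AHH.FloZ

/-!
# AHH: `FlowNStmt`
-/

set_option autoImplicit false

namespace Pool.Agent.AHH.H90

/-- THE NUMBERS OF THE INCREMENTS -/
theorem flowNStmt : H58.FlowNStmt := fun d a c C hd _ hc _ _ => flowN d a c C (by omega) hc

end Pool.Agent.AHH.H90
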