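import Pool.Agent.Helper90_AHH.YInc
import Pool.Agent.Helper89_FAR.Far4

/-!
# AHH: block Y in one block update, near and far
-/

set_option autoImplicit false

open scoped BigOperators NNReal ENNReal Matrix

noncomputable section

namespace Pool.Agent.AHH.H90

open Pool.Agent.BED (Tor)
open Pool.Agent.LE.QF (BB KK)
open Pool.Agent.AND2B (net kap Hr Vef)
open Pool.Agent.ANP (Cfg Geo)
open Pool.Agent.AFJ (ind)
open Pool.Agent.ABY (vir)
open Pool.Agent.AHH.H58 (om_pos one_le_om)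
open Pool.Agent.ANR.H89 (Upd YFar)

/-- exponential tails against the potential, `φ ≥ D / 8` -/
theorem far_om8 {X : Type} (Γ : Geo X) (n : ℕ) (B x : X) {W c β f : ℝ} (hL : 0 < Γ.L n)
    (hx : 2 * Γ.L n < Γ.D x B) (hf : (Γ.D x B : ℝ) / 8 ≤ f) (hβ : 16 ≤ β * Γ.L n) (hW : 0 ≤ W)
    (hc : W * Real.exp (-(β * Γ.L n / 8)) ≤ c) :
    W * Real.exp (-(β * f)) ≤ c * om Γ n B x := by
  have h3 : (0 : ℝ) < Γ.L n := by exact_mod_cast hL
  have hx' : 2 * (Γ.L n : ℝ) < Γ.D x B := by exact_mod_cast hx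
  have hβ0 : 0 < β := by
    by_contra hcon
    push Not at hcon
    nlinarith
  have h4 : β * Γ.L n / 8 + (Γ.D x B : ℝ) / Γ.L n - 2 ≤ β * f := by
    have h5 : (Γ.D x B : ℝ) / Γ.L n ≤ β * Γ.D x B / 16 := by
      rw [div_le_iff₀ h3]
      have h6 : 0 ≤ (Γ.D x B : ℝ) := Nat.cast_nonneg _
      nlinarith
    have h6 : β * (Γ.D x B / 8) ≤ β * f := mul_le_mul_of_nonneg_left hf hβ0.le
    nlinarith
  calc W * Real.exp (-(β * f)) ≤
      W * (Real.exp (-(β * Γ.L n / 8)) * Real.exp (2 - (Γ.D x B : ℝ) / Γ.L n)) := by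
        apply mul_le_mul_of_nonneg_left _ hW
        rw [← Real.exp_add, Real.exp_le_exp]
        linarith
    _ = W * Real.exp (-(β * Γ.L n / 8)) * om Γ n B x := by unfold om; ring
    _ ≤ c * om Γ n B x := mul_le_mul_of_nonneg_right hc (om_pos Γ n B x).le

variable {d M : ℕ} [NeZero M]

/-- the pair of block Y far from the block; `s` the clock of the unprocessed running sites, `c` the
final clock -/
theorem yfar {E e₀ c₀ : ℝ} {b run : Finset (Tor d M)} {T T' : Cfg (Tor d M)} {φ : Tor d M → ℝ}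
    {S : Finset (Tor d M)} {h₀ k₀ β s c : ℝ}
    (hU : Upd (Hr (Vef T) E) (Hr (Vef T') E) (kap e₀ T) (kap e₀ T') φ b (Al T) S h₀ k₀ β)
    (he : 0 ≤ e₀) (hc₀ : 0 < c₀) (hrun : run ⊆ Al T) (hb : b ⊆ run) (hmb : T'.mb = T.mb)
    (hoff : ∀ x, x ∉ b → T'.s x = T.s x) (hon : ∀ x ∈ b, (T'.s x : ℝ) = c)
    (hbs : ∀ x ∈ b, (T.s x : ℝ) = s) (hrs : ∀ x ∈ run, (T.s x : ℝ) = s ∨ (T.s x : ℝ) = c)
    (hc : 0 < c) (hcs : c ≤ s) (h2 : 2 * (s - c) ≤ c)
    (hg : ∀ a ∈ run, c₀ ≤ gg T a ∧ (net E e₀ T a a).im ≤ 3 / 2 * gg T a ∧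
      (net E e₀ T' a a).im ≤ 3 / 2 * gg T a) :
    ∀ a ∈ run,
      ‖vir (BB (net E e₀ T')) (pv T' run c) (pw T' run c) a -
        vir (BB (net E e₀ T)) (pv T run c) (pw T run c) a‖ ≤
        400 / (c₀ * k₀) * (Real.exp (-(β / 6 * φ a)) * gg T a) ∧
      |vir (KK (net E e₀ T')) (pv T' run c) (pw T' run c) a -
        vir (KK (net E e₀ T)) (pv T run c) (pw T run c) a| ≤
        400 / (c₀ * k₀) * (Real.exp (-(β / 6 * φ a)) * gg T a) := by
  have hg0 : ∀ x ∈ run, 0 ≤ gg T x := fun x hx => hc₀.le.trans (hg x hx).1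
  have hk : ∀ x, 0 < kap e₀ T x := hU.n.pos
  have hk' : ∀ x, 0 < kap e₀ T' x := hU.n'.pos
  have hpw : pw T' run c = pw T run c := by
    unfold pw gg
    rw [hmb]
  have hgg : gg T' = gg T := by
    unfold gg
    rw [hmb]
  have hs0 : 0 < s := lt_of_lt_of_le hc hcs
  have e1 : ∀ x ∈ run, kap e₀ T x = e₀ + (T.s x : ℝ) * gg T x := fun x _ => rfl
  have e2 : ∀ x, kap e₀ T' x = e₀ + (T'.s x : ℝ) * gg T x := fun x => by
    unfold kap gg
    rw [hmb]
  have hP : (∀ x, 0 ≤ pv T run c x) ∧ (∀ x, x ∉ run → pv T run c x = 0) ∧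
      ∀ x ∈ run, 2 * (pv T run c x * gg T x) ≤ kap e₀ T x := by
    refine ⟨fun x => ?_, fun x hx => ?_, fun x hx => ?_⟩
    · unfold pv ind
      split_ifs with h
      · rw [one_mul]
        rcases hrs x h with h1 | h1 <;> linarith
      · rw [zero_mul]
    · unfold pv ind
      rw [if_neg hx, zero_mul]
    · have h1 : pv T run c x = (T.s x : ℝ) - c := by
        unfold pv ind
        rw [if_pos hx, one_mul]
      rw [h1, e1 x hx]
      have h3 := hg0 x hx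
      have h4 : 2 * ((T.s x : ℝ) - c) ≤ (T.s x : ℝ) := by
        rcases hrs x hx with h5 | h5 <;> linarith
      nlinarith [mul_le_mul_of_nonneg_right h4 h3]
  have hrs' : ∀ x ∈ run, (T'.s x : ℝ) = s ∨ (T'.s x : ℝ) = c := by
    intro x hx
    by_cases h : x ∈ b
    · exact Or.inr (hon x h)
    · rw [hoff x h]
      exact hrs x hx
  have hP' : (∀ x, 0 ≤ pv T' run c x) ∧ (∀ x, x ∉ run → pv T' run c x = 0) ∧
      ∀ x ∈ run, 2 * (pv T' run c x * gg T x) ≤ kap e₀ T' x := by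
    refine ⟨fun x => ?_, fun x hx => ?_, fun x hx => ?_⟩
    · unfold pv ind
      split_ifs with h
      · rw [one_mul]
        rcases hrs' x h with h1 | h1 <;> linarith
      · rw [zero_mul]
    · unfold pv ind
      rw [if_neg hx, zero_mul]
    · have h1 : pv T' run c x = (T'.s x : ℝ) - c := by
        unfold pv ind
        rw [if_pos hx, one_mul]
      rw [h1, e2 x]
      have h3 := hg0 x hx
      have h4 : 2 * ((T'.s x : ℝ) - c) ≤ (T'.s x : ℝ) := by
        rcases hrs' x hx with h5 | h5 <;> linarith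
      nlinarith [mul_le_mul_of_nonneg_right h4 h3]
  have hY : YFar (Hr (Vef T) E) (Hr (Vef T') E) (kap e₀ T) (kap e₀ T') φ b (Al T) S h₀ k₀ β
      (pv T run c) (pv T' run c) (pw T run c) (gg T) run run c₀ := by
    refine ⟨hU, fun x hx => ?_, hc₀, hrun, Finset.Subset.refl _, hb, fun a ha => ?_, hP, hP',
      ⟨fun x hx => ?_, fun x hx => ?_⟩, fun x => ?_, fun x => ?_⟩
    · have h3 := hg0 x (hb hx)
      rw [e1 x (hb hx), e2 x, hbs x hx, hon x hx]
      have h4 := mul_le_mul_of_nonneg_right hcs h3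
      have h5 : s ≤ 2 * c := by linarith
      have h6 := mul_le_mul_of_nonneg_right h5 h3
      constructor
      · linarith
      · linarith
    · exact hg a ha
    · unfold pv
      rw [hoff x hx]
    · have h1 : pv T' run c x - pv T run c x = c - s := by
        unfold pv ind
        rw [if_pos (hb hx), hbs x hx, hon x hx]
        ring
      have h3 := hg0 x (hb hx)
      rw [h1, e2 x, hon x hx, abs_of_nonpos (by linarith)]
      have h4 : -(c - s) ≤ c := by linarith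
      have h5 := mul_le_mul_of_nonneg_right h4 h3
      linarith
    · unfold pw ind
      split_ifs with h
      · have := hg0 x h
        positivity
      · rw [zero_mul]
    · unfold pw ind
      split_ifs with h
      · rw [e2 x, one_mul]
        have h3 := hg0 x h
        have h4 : c ≤ (T'.s x : ℝ) := by
          rcases hrs' x h with h5 | h5 <;> linarith
        have h5 := mul_le_mul_of_nonneg_right h4 h3
        linarith
      · rw [zero_mul]
        exact (hk' x).le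
  intro a ha
  rw [hpw]
  exact hY.pair ha

/-- `Inc.yin`, complete: near part from the block lemma, far part from `yfar` -/
theorem inc_yin_hf {V : Env d M} {n : ℕ} {B : Tor d M} {b Q1 run : Finset (Tor d M)}
    {T T' : Cfg (Tor d M)} {φ : Tor d M → ℝ} {S : Finset (Tor d M)} {h₀ k₀ β δ c s cf : ℝ}
    (hU : Upd (Hr (Vef T) V.E) (Hr (Vef T') V.E) (kap V.e₀ T) (kap V.e₀ T') φ b (Al T) S h₀ k₀ β)
    (hφ : ∀ x, 2 * V.Γ.L n < V.Γ.D x B → (V.Γ.D x B : ℝ) / 8 ≤ φ x)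
    (he : 0 ≤ V.e₀) (hc₀ : 0 < V.c₀) (hrun : run ⊆ Al T) (hb : b ⊆ run) (hmb : T'.mb = T.mb)
    (hoff : ∀ x, x ∉ b → T'.s x = T.s x) (hon : ∀ x ∈ b, (T'.s x : ℝ) = cf)
    (hbs : ∀ x ∈ b, (T.s x : ℝ) = s) (hrs : ∀ x ∈ run, (T.s x : ℝ) = s ∨ (T.s x : ℝ) = cf)
    (hcf : 0 < cf) (hcs : cf ≤ s) (h2 : 2 * (s - cf) ≤ cf)
    (hg : ∀ a ∈ run, V.c₀ ≤ gg T a ∧ (net V.E V.e₀ T a a).im ≤ 3 / 2 * gg T a ∧
      (net V.E V.e₀ T' a a).im ≤ 3 / 2 * gg T a)
    (hQ : ∀ x ∈ Al T, V.Γ.D x B ≤ 2 * V.Γ.L n → x ∈ Q1)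
    (hyb : ∀ x ∈ Q1, x ∈ run →
      ‖vir (BB (net V.E V.e₀ T')) (pv T' run cf) (pw T' run cf) x -
        vir (BB (net V.E V.e₀ T)) (pv T run cf) (pw T run cf) x‖ ≤ δ)
    (hyk : ∀ x ∈ Q1, x ∈ run →
      |vir (KK (net V.E V.e₀ T')) (pv T' run cf) (pw T' run cf) x -
        vir (KK (net V.E V.e₀ T)) (pv T run cf) (pw T run cf) x| ≤ δ)
    (hL : 0 < V.Γ.L n) (hδ : 2 * δ ≤ c * V.c₀) (hβ : 16 ≤ β / 6 * V.Γ.L n)
    (hW : 800 / (V.c₀ * k₀) * Real.exp (-(β / 6 * V.Γ.L n / 8)) ≤ c) :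
    ∀ a ∈ run, yy V.E V.e₀ T' run cf a ≤
      yy V.E V.e₀ T run cf a + c * om V.Γ n B a * gg T a := by
  have hk₀ := hU.hk₀
  have hW0 : 0 ≤ 800 / (V.c₀ * k₀) := by positivity
  have hc : 0 ≤ c := le_trans (by positivity) hW
  intro a ha
  have hga := (hg a ha).1
  have hga0 : 0 < gg T a := lt_of_lt_of_le hc₀ hga
  by_cases hD : V.Γ.D a B ≤ 2 * V.Γ.L n
  · have hom := one_le_om V.Γ n B a hD
    have h1 := yy_le V.E V.e₀ T T' run cf δ a (hyb a (hQ a (hrun ha) hD) ha)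
      (hyk a (hQ a (hrun ha) hD) ha)
    have h3 : c * V.c₀ ≤ c * gg T a := mul_le_mul_of_nonneg_left hga hc
    have h4 : c * gg T a ≤ c * om V.Γ n B a * gg T a := by
      have h5 : c * 1 ≤ c * om V.Γ n B a := mul_le_mul_of_nonneg_left hom hc
      rw [mul_one] at h5
      exact mul_le_mul_of_nonneg_right h5 hga0.le
    linarith
  · have hD' : 2 * V.Γ.L n < V.Γ.D a B := by omega
    obtain ⟨h1, h3⟩ := yfar hU he hc₀ hrun hb hmb hoff hon hbs hrs hcf hcs h2 hg a ha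
    have h4 := yy_le V.E V.e₀ T T' run cf _ a h1 h3
    have h5 := far_om8 V.Γ n B a (W := 800 / (V.c₀ * k₀)) (c := c) (β := β / 6) (f := φ a) hL hD'
      (hφ a hD') hβ hW0 hW
    have h6 := mul_le_mul_of_nonneg_right h5 hga0.le
    have h7 : 2 * (400 / (V.c₀ * k₀) * (Real.exp (-(β / 6 * φ a)) * gg T a)) =
        800 / (V.c₀ * k₀) * Real.exp (-(β / 6 * φ a)) * gg T a := by ring
    rw [h7] at h4
    linarith

end Pool.Agent.AHH.H90
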