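import Pool.Agent.Helper10_AGU.GPB
import Pool.Agent.Helper99_AGU.GWB
import Pool.Agent.Helper81_ABY.VRG
import Pool.Agent.Helper44_ABY.VST

/-!
# Block Y under a change of the gauge
-/

set_option autoImplicit false

open scoped BigOperators Matrix

noncomputable section

namespace Pool.Agent.AHH.H90

open Pool.Agent.AFJ (ind)
open Pool.Agent.LE.QF (BB KK)

/-- the threshold of block Y after a change of the gauge -/
theorem yreg {X : Type} [Fintype X] [DecidableEq X] {G G' : Matrix X X ℂ} {k k' : X → ℝ}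
    {z dl : X → ℂ} {d s c0 C0 Cg th e : ℝ} {g : X → ℝ} {R : Finset X}
    (hC : AGU.Chg G G' k k' z d) (hs : 0 < s) (hc : 0 < c0 ∧ 1 ≤ C0)
    (_hz : ∀ a, z a = s * dl a) (he : ∀ a, ‖dl a‖ ≤ e) (hde : e ≤ c0 / 4)
    (hg : ∀ a ∈ R, c0 ≤ g a ∧ g a ≤ C0 ∧ s * g a ≤ k a ∧ (G a a).im ≤ Cg)
    (hY : ABY.Yin G 0 (fun x => ind R x * (s * g x)) g R th) (hth : 0 ≤ th ∧ th ≤ 1) :
    ABY.Yin G' 0 (fun x => ind R x * (s * (g x + (dl x).im))) (fun x => g x + (dl x).im) R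
      (th + (14 * Cg / c0 + 6 * Cg / c0 ^ 2 + 3 / c0) * (d + e)) := by
  intro a ha
  have hc0 := hc.1
  obtain ⟨hd0, hd1⟩ := hC.hd
  have he0 : 0 ≤ e := (norm_nonneg _).trans (he a)
  obtain ⟨hga, -, -, hCa⟩ := hg a ha
  obtain ⟨g1, -⟩ := AGU.H99.gwb X G k hC.h0
  obtain ⟨-, -, g3, -⟩ := AGU.H10.gpb AGU.H99.gwb X G G' k k' z d hC
  have hIm0 : 0 ≤ (G a a).im := by
    rw [← g1 a]
    exact Finset.sum_nonneg fun b _ => mul_nonneg (hC.h0.hk b).le (by positivity)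
  have hCg : 0 ≤ Cg := hIm0.trans hCa
  have hγ := Real.sqrt_nonneg Cg
  have hγ2 := Real.sq_sqrt hCg
  set γ : ℝ := Real.sqrt Cg with hγdef
  have hw : ∀ b, 0 ≤ ind R b * (s * g b) ∧ ind R b * (s * g b) ≤ k b := by
    intro b
    unfold ind
    split_ifs with h
    · obtain ⟨h1, -, h3, -⟩ := hg b h
      constructor
      · have : 0 < g b := lt_of_lt_of_le hc0 h1
        positivity
      · rw [one_mul]
        exact h3
    · rw [zero_mul]
      exact ⟨le_rfl, (hC.h0.hk b).le⟩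
  have hw' : ∀ b, |ind R b * (s * (g b + (dl b).im)) - ind R b * (s * g b)| ≤ e / c0 * k b := by
    intro b
    unfold ind
    split_ifs with h
    · obtain ⟨h1, -, h3, -⟩ := hg b h
      have e1 : 1 * (s * (g b + (dl b).im)) - 1 * (s * g b) = s * (dl b).im := by ring
      rw [e1, abs_mul, abs_of_pos hs]
      have h4 : |(dl b).im| ≤ e := (Complex.abs_im_le_norm _).trans (he b)
      rw [div_mul_eq_mul_div, le_div_iff₀ hc0]
      have h5 : s * c0 ≤ k b := (mul_le_mul_of_nonneg_left h1 hs.le).trans h3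
      calc s * |(dl b).im| * c0 = |(dl b).im| * (s * c0) := by ring
        _ ≤ e * k b := mul_le_mul h4 h5 (by positivity) he0
    · rw [zero_mul, zero_mul, sub_zero, abs_zero]
      have := (hC.h0.hk b).le
      positivity
  have h1 : ∑ b, k b * ‖G' a b - G a b‖ ^ 2 ≤ (2 * d * γ) ^ 2 := by
    have h2 := g3 a
    have h3 : ∑ b, k b * ‖G' a b - G a b‖ ^ 2 = ∑ b, k b * ‖G' b a - G b a‖ ^ 2 := by
      refine Finset.sum_congr rfl fun b _ => ?_
      rw [hC.h1.hs a b, hC.h0.hs a b]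
    rw [h3]
    refine h2.trans ?_
    have h4 : d ^ 2 * (G a a).im ≤ d ^ 2 * Cg := mul_le_mul_of_nonneg_left hCa (sq_nonneg d)
    have h5 : 0 ≤ d ^ 2 * Cg := by positivity
    calc 2 * d ^ 2 * (G a a).im = 2 * (d ^ 2 * (G a a).im) := by ring
      _ ≤ 4 * (d ^ 2 * Cg) := by linarith
      _ = (2 * d * γ) ^ 2 := by rw [← hγ2]; ring
  have h2 : ∑ b, k b * ‖G a b‖ ^ 2 ≤ γ ^ 2 := by
    rw [g1 a, hγ2]
    exact hCa
  have hvrg := ABY.H81.vrg X (fun b => G a b) (fun b => G' a b) k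
    (fun x => ind R x * (s * g x)) (fun x => ind R x * (s * (g x + (dl x).im)))
    (2 * d * γ) γ (e / c0) (by positivity) hγ (by positivity) hw hw' h1 h2
  have hv : ∀ (G : Matrix X X ℂ) (w : X → ℝ),
      ABY.vir (BB G) 0 w a = ∑ b, ((w b : ℝ) : ℂ) * G a b ^ 2 := by
    intro G w
    rw [ABY.H44.vir_zero]
    refine Finset.sum_congr rfl fun b _ => ?_
    unfold BB
    rw [mul_comm]
    rfl
  have hv2 : ∀ (G : Matrix X X ℂ) (w : X → ℝ),
      ABY.vir (KK G) 0 w a = ∑ b, w b * ‖G a b‖ ^ 2 := by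
    intro G w
    rw [ABY.H44.vir_zero]
    refine Finset.sum_congr rfl fun b _ => ?_
    unfold KK
    rw [mul_comm]
    rfl
  have hYa := hY a ha
  simp only [hv, hv2] at hYa ⊢
  have hvrg' : |‖∑ b, ((ind R b * (s * (g b + (dl b).im)) : ℝ) : ℂ) * G' a b ^ 2‖ -
      ‖∑ b, ((ind R b * (s * g b) : ℝ) : ℂ) * G a b ^ 2‖| +
      |∑ b, ind R b * (s * (g b + (dl b).im)) * ‖G' a b‖ ^ 2 -
        ∑ b, ind R b * (s * g b) * ‖G a b‖ ^ 2| ≤
      2 * (2 * (2 * d * γ) * γ + (2 * d * γ) ^ 2) + 2 * (e / c0) * (γ + 2 * d * γ) ^ 2 := hvrg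
  have v2 := le_abs_self (‖∑ b, ((ind R b * (s * (g b + (dl b).im)) : ℝ) : ℂ) * G' a b ^ 2‖ -
    ‖∑ b, ((ind R b * (s * g b) : ℝ) : ℂ) * G a b ^ 2‖)
  have v3 := le_abs_self (∑ b, ind R b * (s * (g b + (dl b).im)) * ‖G' a b‖ ^ 2 -
    ∑ b, ind R b * (s * g b) * ‖G a b‖ ^ 2)
  -- the numbers
  have hda : |(dl a).im| ≤ e := (Complex.abs_im_le_norm _).trans (he a)
  obtain ⟨hda1, hda2⟩ := abs_le.1 hda
  have hgd : 3 / 4 * c0 ≤ g a + (dl a).im := by linarith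
  have hq : 2 * (2 * (2 * d * γ) * γ + (2 * d * γ) ^ 2) + 2 * (e / c0) * (γ + 2 * d * γ) ^ 2 ≤
      10 * d * Cg + 9 / 2 * (e / c0) * Cg := by
    have e1 : 2 * (2 * (2 * d * γ) * γ + (2 * d * γ) ^ 2) + 2 * (e / c0) * (γ + 2 * d * γ) ^ 2 =
        (8 * d + 8 * d ^ 2) * γ ^ 2 + 2 * (e / c0) * ((1 + 2 * d) ^ 2 * γ ^ 2) := by ring
    rw [e1, hγ2]
    have e2 : 8 * d + 8 * d ^ 2 ≤ 10 * d := by nlinarith
    have e3 : (1 + 2 * d) ^ 2 ≤ 9 / 4 := by nlinarith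
    have e4 : 0 ≤ e / c0 := by positivity
    have e5 := mul_le_mul_of_nonneg_right e2 hCg
    have e6 := mul_le_mul_of_nonneg_left (mul_le_mul_of_nonneg_right e3 hCg) e4
    nlinarith
  have hfin : (1 + th) * g a + (10 * d * Cg + 9 / 2 * (e / c0) * Cg) ≤
      (1 + (th + (14 * Cg / c0 + 6 * Cg / c0 ^ 2 + 3 / c0) * (d + e))) * (g a + (dl a).im) := by
    have e1 : (1 + th) * g a ≤ (1 + th) * (g a + (dl a).im) + 2 * e := by
      nlinarith [hth.1, hth.2]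
    obtain ⟨K, hK⟩ : ∃ K : ℝ, K = 14 * Cg / c0 + 6 * Cg / c0 ^ 2 + 3 / c0 := ⟨_, rfl⟩
    have hK0 : 0 ≤ K := by rw [hK]; positivity
    have e2 : 10 * d * Cg + 9 / 2 * (e / c0) * Cg + 2 * e ≤ K * (d + e) * (3 / 4 * c0) := by
      have f1 : K * (d + e) * (3 / 4 * c0) = (d + e) * (21 / 2 * Cg + 9 / 2 * (Cg / c0) + 9 / 4) := by
        rw [hK]
        field_simp
        ring
      rw [f1]
      have f2 : 9 / 2 * (e / c0) * Cg = 9 / 2 * (e * (Cg / c0)) := by ring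
      rw [f2]
      have f3 : 0 ≤ Cg / c0 := by positivity
      nlinarith [mul_nonneg hd0 hCg, mul_nonneg he0 hCg, mul_nonneg hd0 f3, mul_nonneg he0 f3]
    have e3 : K * (d + e) * (3 / 4 * c0) ≤ K * (d + e) * (g a + (dl a).im) :=
      mul_le_mul_of_nonneg_left hgd (by positivity)
    rw [← hK]
    nlinarith
  linarith

end Pool.Agent.AHH.H90
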