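import Pool.Agent.Helper17_AHH.Par
import Pool.Agent.Helper61_AHH.Num
import Pool.Agent.Helper89_FAR.Hf
import Pool.Agent.Helper58_AHH.Flow

/-!
# AHH: the numbers of the increments `Inc.ent`, `Inc.lar`, `Inc.yin`
-/

set_option autoImplicit false

open scoped BigOperators NNReal

noncomputable section

namespace Pool.Agent.AHH.H90

open Pool.Agent.BED (Tor)
open Pool.Agent.AND2B (Ev Fld)
open Pool.Agent.AND.Num
open Pool.Agent.AHH.H61
open Pool.Agent.ANR.H89 (cI)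

/-- the constant of the alive distance is at most `sg n ^ (-3/2)` -/
theorem cI_num (d : ℕ) (a c C : ℝ) :
    Ev d a es c C fun V => ∀ n, n ≤ V.N + 1 →
      cI d V.Dn (Finset.range n) ≤ V.sg n ^ (-(3 / 2) : ℝ) := by
  have h1 : Ev d a es c C fun V => ∀ s : ℝ, 0 < s → s ≤ V.w →
      s ≤ 1 ∧ 2 * 3 ^ d * s ^ (-(5 / 4) : ℝ) ≤ (1 - (V.th : ℝ) ^ (3 / 2 : ℝ)) * s ^ (-(3 / 2) : ℝ) := by
    refine ev_small (fun th _ _ _ _ s =>
      s ≤ 1 ∧ 2 * 3 ^ d * s ^ (-(5 / 4) : ℝ) ≤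
        (1 - (th : ℝ) ^ (3 / 2 : ℝ)) * s ^ (-(3 / 2) : ℝ)) ?_
    intro th c₁ C₁ α J _ hth _ _
    have hth' : (th : ℝ) ^ (3 / 2 : ℝ) < 1 :=
      Real.rpow_lt_one (NNReal.coe_nonneg _) (by exact_mod_cast hth) (by norm_num)
    exact (small_le 1 one_pos).and (small_pow' (2 * 3 ^ d) (1 - (th : ℝ) ^ (3 / 2 : ℝ)) _ _
      (by linarith) (by norm_num))
  refine (ev_good.and h1).imp fun V hV => ?_
  obtain ⟨hG, hV⟩ := hV
  have hP : V.Pre a := hG.toPre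
  have hw := w_pos hP
  intro n
  induction n with
  | zero =>
    intro _
    unfold cI
    rw [Finset.range_zero, Finset.sum_empty, mul_zero, add_zero]
    exact Real.one_le_rpow_of_pos_of_le_one_of_nonpos (sg_pos hP 0)
      ((sg_le hP 0).trans (hV V.w hw le_rfl).1) (by norm_num)
  | succ n ih =>
    intro hn
    have ih' := ih (by omega)
    obtain ⟨g1, g2⟩ := hV (V.sg (n + 1)) (sg_pos hP _) (sg_le hP _)
    have e1 : cI d V.Dn (Finset.range (n + 1)) =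
        cI d V.Dn (Finset.range n) + 2 * 3 ^ d * V.Dn n := by
      unfold cI
      rw [Finset.sum_range_succ]
      ring
    have h2 : (V.Dn n : ℝ) ≤ V.sg (n + 1) ^ (-(5 / 4) : ℝ) := hP.sc.dl n (by omega)
    have hs := sg_pos hP (n + 1)
    have hth : (0 : ℝ) < V.th := by exact_mod_cast th_pos hP
    have h3 : V.sg n ^ (-(3 / 2) : ℝ) ≤
        (V.th : ℝ) ^ (3 / 2 : ℝ) * V.sg (n + 1) ^ (-(3 / 2) : ℝ) := by
      have h4 := sg_succ hP n
      have h5 : V.sg (n + 1) / V.th ≤ V.sg n := by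
        rw [div_le_iff₀ hth]
        linarith
      have h6 : V.sg n ^ (-(3 / 2) : ℝ) ≤ (V.sg (n + 1) / V.th) ^ (-(3 / 2) : ℝ) :=
        Real.rpow_le_rpow_of_nonpos (by positivity) h5 (by norm_num)
      refine h6.trans (le_of_eq ?_)
      rw [Real.div_rpow hs.le hth.le, Real.rpow_neg hth.le, div_inv_eq_mul]
      ring
    rw [e1]
    have h7 : 2 * 3 ^ d * (V.Dn n : ℝ) ≤ 2 * 3 ^ d * V.sg (n + 1) ^ (-(5 / 4) : ℝ) :=
      mul_le_mul_of_nonneg_left h2 (by positivity)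
    linarith

/-- the sum of the densities of the dead sites -/
theorem sum_num {d : ℕ} {a : ℝ} {V : AND2B.Env d} (hP : V.Pre a) {n : ℕ} (hn : n ≤ V.N + 2) :
    ∑ i ∈ Finset.range n, (3 ^ d * V.Dn i : ℝ) / V.G.L i ≤ 1 / 4 := by
  refine le_trans (le_of_eq ?_) ((Finset.sum_le_sum_of_subset_of_nonneg
    (Finset.range_subset_range.2 hn) fun i _ _ => by positivity).trans hP.sc.ds)
  refine Finset.sum_congr rfl fun i _ => ?_
  have : ((V.G.L i : ℕ) : ℝ) = 2 ^ V.l i := by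
    show (((2 ^ V.l i : ℕ)) : ℝ) = 2 ^ V.l i
    push_cast
    rfl
  rw [this]

/-- the sides of the blocks are large -/
theorem L_low {d : ℕ} {a : ℝ} {V : AND2B.Env d} (hP : V.Pre a) {n j : ℕ} (hn : n ≤ V.N)
    (hj : j ≤ V.kk (n + 1)) : (V.cl j : ℝ) ^ (-5 : ℝ) ≤ (V.G.L n : ℝ) := by
  have h1 : (((V.G.L n : ℕ)) : ℝ) = 2 ^ V.l n := by
    show (((2 ^ V.l n : ℕ)) : ℝ) = 2 ^ V.l n
    push_cast
    rfl
  rw [h1]
  have h2 := hP.sc.llow n hn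
  refine le_trans ?_ h2
  exact Real.rpow_le_rpow_of_nonpos (sg_pos hP _) (cl_anti' hP hj) (by norm_num)

/-- the hypotheses of helper67 -/
theorem eokZ (d : ℕ) (a c C : ℝ) (hc : 0 < c) (hc2 : c ≤ 1 / 2) (hC : 1 ≤ C) :
    Ev d a es c C fun V => ∀ k, H67.EOk (toE V c C) k := by
  refine (ev_good.and (ev_th (1 / 3) (by norm_num))).imp fun V hV k => ?_
  obtain ⟨hG, hth3⟩ := hV
  have hP : V.Pre a := hG.toPre
  have hth1 : (V.th : ℝ) < 1 := by exact_mod_cast hP.th.2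
  exact
    { th := ⟨by
        show 2 / 3 ≤ (V.th : ℝ)
        linarith, hth1⟩
      c₀ := ⟨by
        show 0 < c / 2
        positivity, by
        show c / 2 ≤ 1
        linarith, by
        show 1 ≤ 2 * C
        linarith⟩
      cl := ⟨cl_pos' hP k, by
        show (V.cl (k + 1) : ℝ) = V.th * V.cl k
        rw [cl_succ V k]
        push_cast
        rfl⟩
      e₀ := hG.e0 }

/-- the geometry: the hypotheses of `upd_hf` -/
theorem geoN (d : ℕ) (a c C : ℝ) :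
    Ev d a es c C fun V => ∀ n, n ≤ V.N →
      4 * (cI d V.Dn (Finset.range (n + 1)) + 1) ≤ V.G.L n ∧
      ∑ i ∈ Finset.range (n + 1), (3 ^ d * V.Dn i : ℝ) / V.G.L i ≤ 1 / 4 := by
  have h1 : Ev d a es c C fun V => ∀ s : ℝ, 0 < s → s ≤ V.w →
      s ≤ 1 ∧ 8 * s ^ (-(3 / 2) : ℝ) ≤ s ^ (-5 : ℝ) :=
    ev_small (fun _ _ _ _ _ s => s ≤ 1 ∧ 8 * s ^ (-(3 / 2) : ℝ) ≤ s ^ (-5 : ℝ))
      fun _ _ _ _ _ _ _ _ _ => (small_le 1 one_pos).and (small_pow 8 _ _ (by norm_num))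
  refine ((ev_good.and h1).and (cI_num d a c C)).imp fun V hV n hn => ?_
  obtain ⟨⟨hG, hV⟩, hcI⟩ := hV
  have hP : V.Pre a := hG.toPre
  obtain ⟨g1, g3⟩ := hV (V.sg (n + 1)) (sg_pos hP _) (sg_le hP _)
  refine ⟨?_, sum_num hP (by omega)⟩
  have h2 := hcI (n + 1) (by omega)
  have h3 : 1 ≤ V.sg (n + 1) ^ (-(3 / 2) : ℝ) :=
    Real.one_le_rpow_of_pos_of_le_one_of_nonpos (sg_pos hP _) g1 (by norm_num)
  have h4 : V.sg (n + 1) ^ (-5 : ℝ) ≤ (V.G.L n : ℝ) := L_low hP hn (j := V.kk (n + 1)) le_rfl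
  linarith

/-- THE NUMBERS OF THE INCREMENTS -/
theorem flowN (d : ℕ) (a c C : ℝ) (hd : 1 ≤ d) (hc : 0 < c) :
    Ev d a es c C fun V => ∀ n k, n ≤ V.N → V.kk n ≤ k → k < V.kk (n + 1) →
      H58.FlowN (toE V c C) (bud V) n k (H17.parZ V c C n k) := by
  have hcp := one_le_cpd d
  have hd0 : (0 : ℝ) < d := by exact_mod_cast hd
  have h1 : Ev d a es c C fun V => ∀ s : ℝ, 0 < s → s ≤ V.w →
      (s ≤ 1 ∧ 1536 * d / c ≤ s ^ (-4 : ℝ)) ∧
      (8 / c * s ^ (-1 : ℝ) * Real.exp (-(c / (128 * d) * s ^ (-4 : ℝ))) ≤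
        s ^ (1 / 8 - 1 / 200 : ℝ) ∧
      256 / c ^ 4 * (64 * cpd d / (1 - (V.th : ℝ))) * s ^ (-4 : ℝ) *
        Real.exp (-(c / (128 * d) * s ^ (-4 : ℝ))) ≤ s ^ (0 : ℝ) ∧
      3200 / c ^ 2 * s ^ (-1 : ℝ) * Real.exp (-(c / (768 * d) * s ^ (-4 : ℝ))) ≤
        s ^ (1 / 16 - 1 / 100 : ℝ)) ∧
      (2 * s ^ (1 / 16 - 1 / 200 : ℝ) ≤ c / 2 * s ^ (1 / 16 - 1 / 100 : ℝ) ∧
      1 * s ^ (1 / 8 : ℝ) ≤ c / 8 * s ^ (0 : ℝ) ∧
      (cpd d + 8) * s ^ (1 / 8 - 1 / 200 : ℝ) ≤ c / 8 * s ^ (0 : ℝ)) := by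
    refine ev_small (fun th _ _ _ _ s =>
      (s ≤ 1 ∧ 1536 * d / c ≤ s ^ (-4 : ℝ)) ∧
      (8 / c * s ^ (-1 : ℝ) * Real.exp (-(c / (128 * d) * s ^ (-4 : ℝ))) ≤
        s ^ (1 / 8 - 1 / 200 : ℝ) ∧
      256 / c ^ 4 * (64 * cpd d / (1 - (th : ℝ))) * s ^ (-4 : ℝ) *
        Real.exp (-(c / (128 * d) * s ^ (-4 : ℝ))) ≤ s ^ (0 : ℝ) ∧
      3200 / c ^ 2 * s ^ (-1 : ℝ) * Real.exp (-(c / (768 * d) * s ^ (-4 : ℝ))) ≤
        s ^ (1 / 16 - 1 / 100 : ℝ)) ∧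
      (2 * s ^ (1 / 16 - 1 / 200 : ℝ) ≤ c / 2 * s ^ (1 / 16 - 1 / 100 : ℝ) ∧
      1 * s ^ (1 / 8 : ℝ) ≤ c / 8 * s ^ (0 : ℝ) ∧
      (cpd d + 8) * s ^ (1 / 8 - 1 / 200 : ℝ) ≤ c / 8 * s ^ (0 : ℝ))) ?_
    intro th c₁ C₁ α J _ _ _ _
    exact ((small_le 1 one_pos).and (small_const (1536 * d / c) 4 (by norm_num))).and
      (((small_exp_pow (8 / c) (c / (128 * d)) 4 1 _ (by positivity) (by norm_num)).and
      ((small_exp_pow _ (c / (128 * d)) 4 4 _ (by positivity) (by norm_num)).and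
      (small_exp_pow _ (c / (768 * d)) 4 1 _ (by positivity) (by norm_num)))).and
      ((small_pow' 2 (c / 2) _ _ (by positivity) (by norm_num)).and
      ((small_pow' 1 (c / 8) _ _ (by positivity) (by norm_num)).and
      (small_pow' (cpd d + 8) (c / 8) _ _ (by positivity) (by norm_num)))))
  refine ((ev_good.and h1).and (geoN d a c C)).imp fun V hV => ?_
  obtain ⟨⟨hG, hV⟩, hcI⟩ := hV
  have hP : V.Pre a := hG.toPre
  have hw := w_pos hP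
  have hth1 : (V.th : ℝ) < 1 := by exact_mod_cast hP.th.2
  have hth0 : (0 : ℝ) < V.th := by exact_mod_cast th_pos hP
  intro n k hn hk hk'
  obtain ⟨⟨a1, a2⟩, ⟨a4, a5, a6⟩, _⟩ := hV (V.cl (k + 1)) (cl_pos' hP _) (cl_le' hP _)
  obtain ⟨⟨b1, _⟩, _, ⟨b4, b5, b6⟩⟩ := hV (V.cl k) (cl_pos' hP _) (cl_le' hP _)
  rw [Real.rpow_zero] at a5 b5 b6
  have hL := L_low hP hn (j := k + 1) (by omega)
  have hs : (0 : ℝ) < V.cl (k + 1) := cl_pos' hP _
  have hs' : (0 : ℝ) < V.cl k := cl_pos' hP _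
  have hcls : (V.cl (k + 1) : ℝ) = V.th * V.cl k := by
    rw [cl_succ V k]
    push_cast
    rfl
  have hcle : (V.cl (k + 1) : ℝ) ≤ V.cl k := cl_anti' hP (Nat.le_succ k)
  set s : ℝ := (V.cl (k + 1) : ℝ) with hsd
  set L : ℝ := ((V.G.L n : ℕ) : ℝ) with hLd
  have hL0 : 0 < L := lt_of_lt_of_le (Real.rpow_pos_of_pos hs _) hL
  -- `β L ≥ c / (16 d) s⁻⁴`
  have hs4 : s * s ^ (-5 : ℝ) = s ^ (-4 : ℝ) := by
    nth_rewrite 1 [← Real.rpow_one s]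
    rw [← Real.rpow_add hs]
    norm_num
  have hb : c / (16 * d) * s ^ (-4 : ℝ) ≤ c / 2 * s / (8 * d) * L := by
    have h2 : c / 2 * s / (8 * d) * s ^ (-5 : ℝ) = c / (16 * d) * s ^ (-4 : ℝ) := by
      rw [← hs4]
      field_simp
      ring
    rw [← h2]
    exact mul_le_mul_of_nonneg_left hL (by positivity)
  have hexp : ∀ q : ℝ, 0 < q → Real.exp (-(c / 2 * s / (8 * d) * L / q)) ≤
      Real.exp (-(c / (16 * d * q) * s ^ (-4 : ℝ))) := by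
    intro q hq
    rw [Real.exp_le_exp, neg_le_neg_iff]
    have h2 : c / (16 * d * q) * s ^ (-4 : ℝ) = c / (16 * d) * s ^ (-4 : ℝ) / q := by
      field_simp
    rw [h2]
    exact div_le_div_of_nonneg_right hb hq.le
  have hinv : s ^ (-1 : ℝ) = 1 / s := by
    rw [Real.rpow_neg hs.le, Real.rpow_one, one_div]
  have hinv4 : s ^ (-4 : ℝ) = 1 / s ^ 4 := by
    have h4 : (-4 : ℝ) = -((4 : ℕ) : ℝ) := by norm_num
    rw [h4, Real.rpow_neg hs.le, Real.rpow_natCast, one_div]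
  have hb6 : 96 ≤ c / 2 * s / (8 * d) * L := by
    refine le_trans ?_ hb
    have h2 : c / (16 * d) * (1536 * d / c) ≤ c / (16 * d) * s ^ (-4 : ℝ) :=
      mul_le_mul_of_nonneg_left a2 (by positivity)
    have h3 : c / (16 * d) * (1536 * d / c) = 96 := by
      field_simp
      norm_num
    linarith
  have hlam : 1 / 4 ≤ (qq V n k).lam := by
    show 1 / 4 ≤ 1 / 4 * (V.cl k : ℝ) ^ (-(3 / 4) : ℝ) * (2 - V.sg n ^ (1 / 400 : ℝ))
    have h2 : 1 ≤ (V.cl k : ℝ) ^ (-(3 / 4) : ℝ) :=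
      Real.one_le_rpow_of_pos_of_le_one_of_nonpos hs' b1 (by norm_num)
    have h3 : V.sg n ^ (1 / 400 : ℝ) ≤ 1 := Real.rpow_le_one (sg_pos hP n).le
      ((sg_le hP n).trans (hV V.w hw le_rfl).1.1) (by norm_num)
    nlinarith
  refine
    { δ := le_rfl
      bL := hb6
      ent := ?_
      lar := ?_
      yin := ?_
      yfar := ?_
      mis := ?_
      hL := (hcI n hn).1
      hsum := (hcI n hn).2 }
  · show 4 / (c / 2 * s) * Real.exp (-(c / 2 * s / (8 * d) * L / 8)) ≤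
      (V.cl k : ℝ) ^ (1 / 8 - 1 / 200 : ℝ)
    have h2 := hexp 8 (by norm_num)
    have h3 : (16 : ℝ) * d * 8 = 128 * d := by ring
    rw [h3] at h2
    have h4 : 4 / (c / 2 * s) = 8 / c * s ^ (-1 : ℝ) := by
      rw [hinv]
      field_simp
      norm_num
    rw [h4]
    calc 8 / c * s ^ (-1 : ℝ) * Real.exp (-(c / 2 * s / (8 * d) * L / 8))
        ≤ 8 / c * s ^ (-1 : ℝ) * Real.exp (-(c / (128 * d) * s ^ (-4 : ℝ))) := by
          refine mul_le_mul_of_nonneg_left h2 ?_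
          have : 0 < s ^ (-1 : ℝ) := Real.rpow_pos_of_pos hs _
          positivity
      _ ≤ s ^ (1 / 8 - 1 / 200 : ℝ) := a4
      _ ≤ _ := Real.rpow_le_rpow hs.le hcle (by norm_num)
  · show (1 - (V.th : ℝ)) / (64 * cpd d) * (4 * (qq V n k).lam) +
      16 / (c / 2 * s) ^ 4 * Real.exp (-(c / 2 * s / (8 * d) * L / 8)) ≤
      (qq V n k).lam * ((1 - (V.th : ℝ)) / (8 * cpd d))
    have h2 := hexp 8 (by norm_num)
    have h3 : (16 : ℝ) * d * 8 = 128 * d := by ring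
    rw [h3] at h2
    have h1th : 0 < 1 - (V.th : ℝ) := by linarith
    have hcp0 : 0 < cpd d := by linarith
    have h4 : 16 / (c / 2 * s) ^ 4 = 256 / c ^ 4 * s ^ (-4 : ℝ) := by
      rw [hinv4]
      field_simp
      norm_num
    have h5 : 256 / c ^ 4 * s ^ (-4 : ℝ) * Real.exp (-(c / 2 * s / (8 * d) * L / 8)) ≤
        (1 - (V.th : ℝ)) / (64 * cpd d) := by
      have h6 : 0 < s ^ (-4 : ℝ) := Real.rpow_pos_of_pos hs _
      have h7 : 256 / c ^ 4 * s ^ (-4 : ℝ) * Real.exp (-(c / 2 * s / (8 * d) * L / 8)) ≤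
          256 / c ^ 4 * s ^ (-4 : ℝ) * Real.exp (-(c / (128 * d) * s ^ (-4 : ℝ))) :=
        mul_le_mul_of_nonneg_left h2 (by positivity)
      refine h7.trans ?_
      have h8 : 256 / c ^ 4 * (64 * cpd d / (1 - (V.th : ℝ))) * s ^ (-4 : ℝ) *
          Real.exp (-(c / (128 * d) * s ^ (-4 : ℝ))) =
          (64 * cpd d / (1 - (V.th : ℝ))) * (256 / c ^ 4 * s ^ (-4 : ℝ) *
            Real.exp (-(c / (128 * d) * s ^ (-4 : ℝ)))) := by ring
      rw [h8, div_mul_eq_mul_div, div_le_iff₀ h1th, one_mul] at a5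
      rw [le_div_iff₀ (by positivity)]
      linarith
    have h9 : (1 - (V.th : ℝ)) / (64 * cpd d) ≤
        (qq V n k).lam * ((1 - (V.th : ℝ)) / (16 * cpd d)) := by
      have h10 : (1 - (V.th : ℝ)) / (64 * cpd d) = 1 / 4 * ((1 - (V.th : ℝ)) / (16 * cpd d)) := by
        field_simp
        norm_num
      rw [h10]
      exact mul_le_mul_of_nonneg_right hlam (by positivity)
    have h11 : (1 - (V.th : ℝ)) / (64 * cpd d) * (4 * (qq V n k).lam) =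
        (qq V n k).lam * ((1 - (V.th : ℝ)) / (16 * cpd d)) := by
      field_simp
      norm_num
    have h12 : (qq V n k).lam * ((1 - (V.th : ℝ)) / (8 * cpd d)) =
        2 * ((qq V n k).lam * ((1 - (V.th : ℝ)) / (16 * cpd d))) := by
      field_simp
      norm_num
    rw [h4, h11, h12]
    linarith
  · show 2 * (V.cl k : ℝ) ^ (1 / 16 - 1 / 200 : ℝ) ≤
      (V.cl k : ℝ) ^ (1 / 16 - 1 / 100 : ℝ) * (c / 2)
    linarith
  · show 800 / (c / 2 * (c / 2 * s)) * Real.exp (-(c / 2 * s / (8 * d) / 6 * L / 8)) ≤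
      (V.cl k : ℝ) ^ (1 / 16 - 1 / 100 : ℝ)
    have h2 := hexp 48 (by norm_num)
    have h3 : (16 : ℝ) * d * 48 = 768 * d := by ring
    have h5 : c / 2 * s / (8 * d) / 6 * L / 8 = c / 2 * s / (8 * d) * L / 48 := by ring
    rw [h3] at h2
    have h4 : 800 / (c / 2 * (c / 2 * s)) = 3200 / c ^ 2 * s ^ (-1 : ℝ) := by
      rw [hinv]
      field_simp
      norm_num
    rw [h4, h5]
    calc 3200 / c ^ 2 * s ^ (-1 : ℝ) * Real.exp (-(c / 2 * s / (8 * d) * L / 48))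
        ≤ 3200 / c ^ 2 * s ^ (-1 : ℝ) * Real.exp (-(c / (768 * d) * s ^ (-4 : ℝ))) := by
          refine mul_le_mul_of_nonneg_left h2 ?_
          have : 0 < s ^ (-1 : ℝ) := Real.rpow_pos_of_pos hs _
          positivity
      _ ≤ s ^ (1 / 16 - 1 / 100 : ℝ) := a6
      _ ≤ _ := Real.rpow_le_rpow hs.le hcle (by norm_num)
  · show (V.cl k : ℝ) ^ (1 / 8 : ℝ) + (V.cl k : ℝ) ^ (1 / 8 - 1 / 200 : ℝ) * cpd d ≤ c / 2 / 2
    have h2 : 0 ≤ (V.cl k : ℝ) ^ (1 / 8 - 1 / 200 : ℝ) := Real.rpow_nonneg hs'.le _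
    linarith

/-- the change of `Λ` is nonnegative -/
theorem omL (d : ℕ) (a c C : ℝ) :
    Ev d a es c C fun V => ∀ n k, 0 ≤ (H17.parZ V c C n k).ω * (H17.parZ V c C n k).L := by
  have hcp := one_le_cpd d
  have h1 : Ev d a es c C fun V => ∀ s : ℝ, 0 < s → s ≤ V.w → s ≤ 1 :=
    ev_small (fun _ _ _ _ _ s => s ≤ 1) fun _ _ _ _ _ _ _ _ _ => small_le 1 one_pos
  refine (ev_good.and h1).imp fun V hV n k => ?_
  obtain ⟨hG, hV⟩ := hV
  have hP : V.Pre a := hG.toPre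
  have hth1 : (V.th : ℝ) < 1 := by exact_mod_cast hP.th.2
  show 0 ≤ (1 - (V.th : ℝ)) / (64 * cpd d) *
    (4 * (1 / 4 * (V.cl k : ℝ) ^ (-(3 / 4) : ℝ) * (2 - V.sg n ^ (1 / 400 : ℝ))))
  have h2 : 0 ≤ (1 - (V.th : ℝ)) / (64 * cpd d) := div_nonneg (by linarith) (by linarith)
  have h3 : V.sg n ^ (1 / 400 : ℝ) ≤ 1 := Real.rpow_le_one (sg_pos hP n).le
    ((sg_le hP n).trans (hV V.w (w_pos hP) le_rfl)) (by norm_num)
  have h4 : 0 ≤ (V.cl k : ℝ) ^ (-(3 / 4) : ℝ) := Real.rpow_nonneg (cl_pos' hP k).le _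
  have h5 : 0 ≤ 1 / 4 * (V.cl k : ℝ) ^ (-(3 / 4) : ℝ) * (2 - V.sg n ^ (1 / 400 : ℝ)) :=
    mul_nonneg (by positivity) (by linarith)
  exact mul_nonneg h2 (by linarith)

end Pool.Agent.AHH.H90
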