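import Pool.Agent.AHH.Defs
import Pool.Agent.Helper14_HSL.HSC
import Pool.Agent.Helper99_AND2B.FLX
import Pool.Agent.Helper90_ABY.VS2
import Pool.Agent.Helper13_ABY.VFR

/-!
# AHH: block Y at the start of a stage and under freezing
-/

set_option autoImplicit false

open scoped BigOperators NNReal Matrix

noncomputable section

namespace Pool.Agent.AHH.H90

open Pool.Agent.BED (Tor)
open Pool.Agent.LE.QF (BB KK)
open Pool.Agent.AND2B (net kap Viol Hr Vef res)
open Pool.Agent.ANP (Cfg Geo Fc)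
open Pool.Agent.AFJ (ind LaR EE)
open Pool.Agent.ABY (vir Cmp Yin)

variable {d M : ℕ} [NeZero M]

/-! ### the network -/

omit [NeZero M] in
/-- the absorption is positive -/
theorem kap_pos {e₀ : ℝ} {T : Cfg (Tor d M)} (he : 0 < e₀)
    (hg : ∀ x, 0 < T.s x → 0 ≤ (T.mb x).im) (x : Tor d M) : 0 < kap e₀ T x := by
  unfold kap
  rcases eq_or_lt_of_le (zero_le (a := T.s x)) with h | h
  · rw [← h]
    simp [he]
  · have h1 : 0 ≤ (T.s x : ℝ) * (T.mb x).im := mul_nonneg (NNReal.coe_nonneg _) (hg x h)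
    linarith

/-- `s g ≤ κ` -/
theorem s_le_kap {e₀ : ℝ} (he : 0 < e₀) (T : Cfg (Tor d M)) (x : Tor d M) :
    (T.s x : ℝ) * gg T x ≤ kap e₀ T x := by
  unfold kap gg
  linarith

/-- the network of a configuration -/
theorem anr_net (E : ℝ) {e₀ : ℝ} {T : Cfg (Tor d M)} (hk : ∀ x, 0 < kap e₀ T x) :
    ANR.Net (Hr (Vef T) E) (kap e₀ T) :=
  ⟨AND2B.H99.hr_sym _ _, hk⟩

/-- Ward -/
theorem net_ward (E : ℝ) {e₀ : ℝ} {T : Cfg (Tor d M)} (hk : ∀ x, 0 < kap e₀ T x) (a : Tor d M) :
    ∑ b, kap e₀ T b * KK (net E e₀ T) a b = (net E e₀ T a a).im := by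
  have hN := anr_net E (T := T) hk
  exact HSL14.ward_diag hN.sym (HSL14.mat_unit hN) a

theorem net_sym (E : ℝ) (e₀ : ℝ) (T : Cfg (Tor d M)) (x y : Tor d M) :
    net E e₀ T x y = net E e₀ T y x :=
  HSL14.gr_sym (AND2B.H99.hr_sym _ _) _ x y

omit [NeZero M] in
theorem KK_nonneg (G : Matrix (Tor d M) (Tor d M) ℂ) (a b : Tor d M) : 0 ≤ KK G a b := by
  unfold KK
  positivity

/-- sums over a part of the sites -/
theorem part_ward (E : ℝ) {e₀ : ℝ} {T : Cfg (Tor d M)} (hk : ∀ x, 0 < kap e₀ T x)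
    (S : Finset (Tor d M)) (f : Tor d M → ℝ) (c : ℝ) (hf : ∀ b ∈ S, f b ≤ c * kap e₀ T b)
    (hc : 0 ≤ c) (a : Tor d M) :
    ∑ b ∈ S, KK (net E e₀ T) a b * f b ≤ c * (net E e₀ T a a).im := by
  rw [← net_ward E hk a, Finset.mul_sum]
  refine (Finset.sum_le_sum fun b hb => ?_).trans
    (Finset.sum_le_sum_of_subset_of_nonneg (Finset.subset_univ S) fun b _ _ => ?_)
  · have h1 := mul_le_mul_of_nonneg_left (hf b hb) (KK_nonneg (net E e₀ T) a b)
    calc KK (net E e₀ T) a b * f b ≤ KK (net E e₀ T) a b * (c * kap e₀ T b) := h1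
      _ = _ := by ring
  · have := (hk b).le
    have := KK_nonneg (net E e₀ T) a b
    positivity

/-! ### start of a stage -/

/-- start of a stage: `s` the clock of the running sites, `lam` the final clock -/
theorem ybeg (E : ℝ) {e₀ : ℝ} {T : Cfg (Tor d M)} {run : Finset (Tor d M)} {s lam e θ : ℝ}
    (hk : ∀ x, 0 < kap e₀ T x) (he₀ : 0 < e₀) (hs : 0 < s) (hlam : 0 < lam) (hls : lam ≤ s)
    (he : 0 ≤ e) (he1 : e * (s - lam) < lam) (hθ : 0 ≤ θ) (hrun : ∀ x ∈ run, (T.s x : ℝ) = s)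
    (hg : ∀ a ∈ run, 0 < gg T a) (him : ∀ a ∈ run, (net E e₀ T a a).im ≤ (1 + e) * gg T a)
    (hY : ∀ a ∈ run, yy E e₀ T run s a ≤ (1 + θ) * gg T a) :
    ∀ a ∈ run, yy E e₀ T run lam a ≤ (1 + θ) / (1 - e * (s - lam) / lam) * gg T a := by
  have hp0 : pv T run s = 0 := by
    funext x
    unfold pv ind
    split_ifs with h
    · rw [hrun x h]
      simp
    · simp
  have hp1 : pv T run lam = fun x => ind run x * (s - lam) := by
    funext x
    unfold pv ind
    split_ifs with h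
    · rw [hrun x h]
    · simp
  have h := ABY.H90.vs2 (net E e₀ T) (gg T) run s lam e θ hs hlam hls he he1 hθ hg (by
    intro a ha
    refine (part_ward E hk run (fun b => s * gg T b) 1 (fun b hb => ?_) zero_le_one a).trans ?_
    · rw [one_mul, ← hrun b hb]
      exact s_le_kap he₀ T b
    · rw [one_mul]
      exact him a ha) (by
    intro a ha
    have h1 := hY a ha
    unfold yy at h1
    rw [hp0] at h1
    exact h1)
  intro a ha
  have h1 := h a ha
  rw [← hp1] at h1
  have h2 : 1 + ((1 + θ) / (1 - e * (s - lam) / lam) - 1) = (1 + θ) / (1 - e * (s - lam) / lam) := by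
    ring
  rw [h2] at h1
  exact h1

/-! ### freezing -/

/-- freezing: `run' ⊆ run` -/
theorem ymon (E : ℝ) {e₀ : ℝ} {T : Cfg (Tor d M)} {run run' : Finset (Tor d M)} {c κ ρ : ℝ}
    (hk : ∀ x, 0 < kap e₀ T x) (hsub : run' ⊆ run) (hc : 0 ≤ c)
    (hcs : ∀ x ∈ run, c ≤ (T.s x : ℝ)) (hκ : 0 ≤ κ)
    (hP : ∀ x ∈ run, ((T.s x : ℝ) - c) * gg T x ≤ κ * kap e₀ T x)
    (hg : ∀ a ∈ run, 0 < gg T a) (hρ : 0 ≤ ρ ∧ ρ < 1)
    (him : ∀ a ∈ run, κ * (net E e₀ T a a).im ≤ ρ * gg T a) :
    ∀ a ∈ run, yy E e₀ T run' c a ≤ yy E e₀ T run c a := by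
  have hind : ∀ x, 0 ≤ ind run x := fun x => by
    unfold ind; split_ifs <;> norm_num
  have hC : Cmp (BB (net E e₀ T)) (KK (net E e₀ T)) (pv T run c) (gg T) run run ρ := by
    refine ⟨fun a b => ?_, ⟨fun x => ?_, fun x hx => ?_⟩, le_rfl, hg, hρ, fun a ha => ?_⟩
    · unfold BB KK
      rw [norm_pow]
    · unfold pv ind
      split_ifs with h
      · rw [one_mul, sub_nonneg]
        exact hcs x h
      · simp
    · unfold pv ind
      rw [if_neg hx, zero_mul]
    · have h1 : ∑ b, KK (net E e₀ T) a b * pv T run c b * gg T b =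
          ∑ b ∈ run, KK (net E e₀ T) a b * (((T.s b : ℝ) - c) * gg T b) := by
        have e0 : ∀ b, KK (net E e₀ T) a b * pv T run c b * gg T b =
            if b ∈ run then KK (net E e₀ T) a b * (((T.s b : ℝ) - c) * gg T b) else 0 := by
          intro b
          unfold pv ind
          split_ifs
          · ring
          · ring
        rw [Finset.sum_congr rfl fun b _ => e0 b, Finset.sum_ite_mem, Finset.univ_inter]
      rw [h1]
      exact (part_ward E hk run _ κ hP hκ a).trans (him a ha)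
  have hw : ∀ x, 0 ≤ pw T run c x := by
    intro x
    unfold pw ind
    split_ifs with h
    · have := hg x h
      positivity
    · simp
  intro a ha
  have h := ABY.H13.vfr ABY.H10.cmp ABY.H82.vex (Tor d M) (net E e₀ T) (pv T run c) (pw T run c)
    (gg T) run run (run \ run') ρ hC Finset.sdiff_subset hw a ha
  have hx : ∀ x, (1 - ind (run \ run') x) * ind run x = ind run' x := by
    intro x
    unfold ind
    by_cases h1 : x ∈ run'
    · have h2 := hsub h1
      simp [h1, h2]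
    · by_cases h2 : x ∈ run
      · simp [h1, h2]
      · simp [h1, h2]
  have e1 : (fun x => (1 - ind (run \ run') x) * pv T run c x) = pv T run' c := by
    funext x
    unfold pv
    rw [← mul_assoc, hx]
  have e2 : (fun x => (1 - ind (run \ run') x) * pw T run c x) = pw T run' c := by
    funext x
    unfold pw
    rw [← mul_assoc, hx]
  rw [e1, e2] at h
  exact h

end Pool.Agent.AHH.H90
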