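import Pool.Agent.Helper58_AHH.EntLar

/-!
# AHH: block Y in one block update
-/

set_option autoImplicit false

open scoped BigOperators NNReal ENNReal Matrix

noncomputable section

namespace Pool.Agent.AHH.H90

open Pool.Agent.BED (Tor)
open Pool.Agent.LE.QF (BB KK)
open Pool.Agent.AND2B (net kap Hr Vef)
open Pool.Agent.ANP (Cfg Geo)
open Pool.Agent.AFJ (ind)
open Pool.Agent.ABY (vir)
open Pool.Agent.AHH.H58 (FarH om_pos one_le_om far_om)

variable {d M : ℕ}

/-! ### the virtual clocks -/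

theorem pv_hf (T : Cfg (Tor d M)) (th : ℝ≥0) {run b : Finset (Tor d M)} (hb : b ⊆ run)
    (ζ : Tor d M → ℝ) (c t : ℝ) (ht : ∀ x ∈ b, t = (1 - (th : ℝ)) * T.s x) :
    (fun x => pv T run c x - ind b x * t) = pv (T.hf th b ζ) run c := by
  funext x
  unfold pv Cfg.hf ind
  simp only
  by_cases h : x ∈ b
  · have h1 := ht x h
    rw [if_pos h, if_pos h, if_pos (hb h)]
    push_cast
    rw [h1]
    ring
  · rw [if_neg h, if_neg h]
    ring

theorem pw_hf (T : Cfg (Tor d M)) (th : ℝ≥0) (run b : Finset (Tor d M)) (ζ : Tor d M → ℝ)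
    (c : ℝ) : pw (T.hf th b ζ) run c = pw T run c := rfl

theorem gg_hf (T : Cfg (Tor d M)) (th : ℝ≥0) (b : Finset (Tor d M)) (ζ : Tor d M → ℝ) :
    gg (T.hf th b ζ) = gg T := rfl

/-- the field `hP` of `AFL.Fl.Ok` with `P0 = pv T run c`, `U = Rg = run`; `s` the clock of the
unprocessed running sites, `c` the final clock -/
theorem ok_hP {T : Cfg (Tor d M)} {run b : Finset (Tor d M)} {e₀ s c : ℝ} (he : 0 ≤ e₀)
    (hb : b ⊆ run) (hbs : ∀ x ∈ b, (T.s x : ℝ) = s)
    (hrun : ∀ x ∈ run, (T.s x : ℝ) = s ∨ (T.s x : ℝ) = c) (hc : 0 < c) (hcs : c ≤ s)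
    (h2 : 2 * (s - c) ≤ c) (hg : ∀ x ∈ run, 0 ≤ gg T x) :
    (∀ x, 0 ≤ pv T run c x) ∧ (∀ x, x ∉ run → pv T run c x = 0) ∧
      (∀ x ∈ b, s - c ≤ pv T run c x) ∧
      ∀ x ∈ run, 2 * (pv T run c x * gg T x) ≤
        e₀ + ((T.s x : ℝ) - if x ∈ b then s - c else 0) * gg T x := by
  refine ⟨fun x => ?_, fun x hx => ?_, fun x hx => ?_, fun x hx => ?_⟩
  · unfold pv ind
    split_ifs with h
    · rw [one_mul]
      rcases hrun x h with h1 | h1 <;> linarith
    · rw [zero_mul]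
  · unfold pv ind
    rw [if_neg hx, zero_mul]
  · unfold pv ind
    rw [if_pos (hb hx), hbs x hx, one_mul]
  · have h1 : pv T run c x = (T.s x : ℝ) - c := by
      unfold pv ind
      rw [if_pos hx, one_mul]
    rw [h1]
    have h3 := hg x hx
    have h4 : 2 * ((T.s x : ℝ) - c) ≤ (T.s x : ℝ) - if x ∈ b then s - c else 0 := by
      split_ifs with h
      · rw [hbs x h]
        linarith
      · rcases hrun x hx with h5 | h5 <;> linarith
    nlinarith [mul_le_mul_of_nonneg_right h4 h3]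

/-- the field `hw` -/
theorem ok_hw {T : Cfg (Tor d M)} {run b : Finset (Tor d M)} {e₀ s c : ℝ}
    (hk : ∀ x, 0 ≤ e₀ + ((T.s x : ℝ) - if x ∈ b then s - c else 0) * gg T x) (he : 0 ≤ e₀)
    (hbs : ∀ x ∈ b, (T.s x : ℝ) = s)
    (hrun : ∀ x ∈ run, (T.s x : ℝ) = s ∨ (T.s x : ℝ) = c) (hc : 0 < c) (hcs : c ≤ s)
    (hg : ∀ x ∈ run, 0 ≤ gg T x) :
    (∀ x, 0 ≤ pw T run c x ∧ pw T run c x ≤
      e₀ + ((T.s x : ℝ) - if x ∈ b then s - c else 0) * gg T x) ∧
      ∀ x, x ∉ run → pw T run c x = 0 := by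
  refine ⟨fun x => ⟨?_, ?_⟩, fun x hx => ?_⟩
  · unfold pw ind
    split_ifs with h
    · have := hg x h
      positivity
    · rw [zero_mul]
  · by_cases h : x ∈ run
    · have h1 : pw T run c x = c * gg T x := by
        unfold pw ind
        rw [if_pos h, one_mul]
      rw [h1]
      have h3 := hg x h
      have h4 : c ≤ (T.s x : ℝ) - if x ∈ b then s - c else 0 := by
        split_ifs with h5
        · rw [hbs x h5]
          linarith
        · rcases hrun x h with h5 | h5 <;> linarith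
      nlinarith [mul_le_mul_of_nonneg_right h4 h3]
    · have h1 : pw T run c x = 0 := by
        unfold pw ind
        rw [if_neg h, zero_mul]
      rw [h1]
      exact hk x
  · unfold pw ind
    rw [if_neg hx, zero_mul]

/-! ### the increments -/

variable [NeZero M]

/-- the change of the pair is at most twice the changes of its components -/
theorem yy_le (E e₀ : ℝ) (T T' : Cfg (Tor d M)) (run : Finset (Tor d M)) (c δ : ℝ) (a : Tor d M)
    (h1 : ‖vir (BB (net E e₀ T')) (pv T' run c) (pw T' run c) a -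
      vir (BB (net E e₀ T)) (pv T run c) (pw T run c) a‖ ≤ δ)
    (h2 : |vir (KK (net E e₀ T')) (pv T' run c) (pw T' run c) a -
      vir (KK (net E e₀ T)) (pv T run c) (pw T run c) a| ≤ δ) :
    yy E e₀ T' run c a ≤ yy E e₀ T run c a + 2 * δ := by
  unfold yy
  have h3 := norm_sub_norm_le (vir (BB (net E e₀ T')) (pv T' run c) (pw T' run c) a)
    (vir (BB (net E e₀ T)) (pv T run c) (pw T run c) a)
  have h4 := le_abs_self (vir (KK (net E e₀ T')) (pv T' run c) (pw T' run c) a -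
    vir (KK (net E e₀ T)) (pv T run c) (pw T run c) a)
  linarith

/-- `Inc.yin` -/
theorem inc_yin {V : Env d M} {n : ℕ} {B : Tor d M} {b Q1 run : Finset (Tor d M)}
    {T T' : Cfg (Tor d M)} {φ : Tor d M → ℝ} {S : Finset (Tor d M)} {h₀ k₀ β δ c cf W β' : ℝ}
    (h : FarH V n B b T T' φ S h₀ k₀ β) (hrun : run ⊆ Al T)
    (hQ : ∀ x ∈ Al T, V.Γ.D x B ≤ 2 * V.Γ.L n → x ∈ Q1)
    (hyb : ∀ x ∈ Q1, x ∈ run →
      ‖vir (BB (net V.E V.e₀ T')) (pv T' run cf) (pw T' run cf) x -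
        vir (BB (net V.E V.e₀ T)) (pv T run cf) (pw T run cf) x‖ ≤ δ)
    (hyk : ∀ x ∈ Q1, x ∈ run →
      |vir (KK (net V.E V.e₀ T')) (pv T' run cf) (pw T' run cf) x -
        vir (KK (net V.E V.e₀ T)) (pv T run cf) (pw T run cf) x| ≤ δ)
    (hfar : ∀ a ∈ run, 2 * V.Γ.L n < V.Γ.D a B →
      yy V.E V.e₀ T' run cf a ≤ yy V.E V.e₀ T run cf a + W * Real.exp (-(β' * φ a)) * gg T a)
    (hg : ∀ a ∈ run, V.c₀ ≤ gg T a) (hc₀ : 0 < V.c₀) (hc : 0 ≤ c) (hδ : 2 * δ ≤ c * V.c₀)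
    (hW : 0 ≤ W) (hβ' : 16 ≤ β' * V.Γ.L n)
    (hcW : W * Real.exp (-(β' * V.Γ.L n / 8)) ≤ c) :
    ∀ a ∈ run, yy V.E V.e₀ T' run cf a ≤
      yy V.E V.e₀ T run cf a + c * om V.Γ n B a * gg T a := by
  intro a ha
  have hga := hg a ha
  have hga0 : 0 < gg T a := lt_of_lt_of_le hc₀ hga
  by_cases hD : V.Γ.D a B ≤ 2 * V.Γ.L n
  · have hom := one_le_om V.Γ n B a hD
    have h1 := yy_le V.E V.e₀ T T' run cf δ a (hyb a (hQ a (hrun ha) hD) ha)
      (hyk a (hQ a (hrun ha) hD) ha)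
    have h2 : c * V.c₀ ≤ c * om V.Γ n B a * gg T a := by
      have h3 : c * V.c₀ ≤ c * gg T a := mul_le_mul_of_nonneg_left hga hc
      have h4 : c * gg T a ≤ c * om V.Γ n B a * gg T a := by
        have h5 : c * 1 ≤ c * om V.Γ n B a := mul_le_mul_of_nonneg_left hom hc
        rw [mul_one] at h5
        exact mul_le_mul_of_nonneg_right h5 hga0.le
      exact h3.trans h4
    linarith
  · have hD' : 2 * V.Γ.L n < V.Γ.D a B := by omega
    have h1 := hfar a ha hD'
    have h2 := far_om V.Γ n B a (W := W) (c := c) (β := β') (f := φ a) h.L0 hD'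
      (h.far a hD') hβ' hW hcW hc
    have h3 := mul_le_mul_of_nonneg_right h2 hga0.le
    linarith

end Pool.Agent.AHH.H90
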